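import Pool.Agent.Q275.GQ.Stm

/-! Project GQ (helper275), job CONTR: the linear map `T` is contracting. -/

set_option autoImplicit false

namespace Pool.Agent.Q94.GQ

open Pool.Agent.Q275.GQ Filter Topology

noncomputable section

/-- the complex coordinate -/
def phi (P : Par) (τ : ℝ × ℝ) : ℂ := (τ.1 : ℂ) * P.α + τ.2

/-- the inverse of the complex coordinate -/
def psi (P : Par) (z : ℂ) : ℝ × ℝ := (z.im / P.α.im, z.re - P.α.re * (z.im / P.α.im))

theorem psi_phi (P : Par) (τ : ℝ × ℝ) : psi P (phi P τ) = τ := by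
  have h := P.nr
  have h1 : (phi P τ).im = τ.1 * P.α.im := by simp [phi]
  have h2 : (phi P τ).re = τ.1 * P.α.re + τ.2 := by simp [phi]
  unfold psi
  rw [h1, h2]
  ext
  · field_simp
  · field_simp
    ring

theorem phi_T (P : Par) (τ : ℝ × ℝ) : phi P (T P τ) = phi P τ / P.α := by
  have ha := P.α_ne
  have h0 : (P.a0 : ℂ) ≠ 0 := by exact_mod_cast P.a0_pos.ne'
  have hr := P.root
  rw [eq_div_iff ha]
  unfold phi T
  push_cast
  field_simp
  linear_combination (-(τ.2 : ℂ)) * hr

theorem phi_iter (P : Par) (τ : ℝ × ℝ) (k : ℕ) :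
    phi P ((T P)^[k] τ) = phi P τ * (P.α⁻¹) ^ k := by
  induction k with
  | zero => simp
  | succ k ih => rw [Function.iterate_succ_apply', phi_T, ih, pow_succ, div_eq_mul_inv, mul_assoc]

theorem psi_cont (P : Par) : Continuous (psi P) := by
  unfold psi
  exact (Complex.continuous_im.div_const _).prodMk
    (Complex.continuous_re.sub (continuous_const.mul (Complex.continuous_im.div_const _)))

theorem contr : S_CONTR := by
  intro P τ
  have h1 : Tendsto (fun k : ℕ => phi P τ * (P.α⁻¹) ^ k) atTop (𝓝 (phi P τ * 0)) := by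
    refine Tendsto.const_mul _ (tendsto_pow_atTop_nhds_zero_of_norm_lt_one ?_)
    rw [norm_inv]
    exact inv_lt_one_of_one_lt₀ P.gt
  rw [mul_zero] at h1
  have h2 := ((psi_cont P).tendsto 0).comp h1
  have h3 : psi P 0 = (0, 0) := by simp [psi]
  rw [h3] at h2
  refine h2.congr fun k => ?_
  change psi P (phi P τ * (P.α⁻¹) ^ k) = _
  rw [← phi_iter, psi_phi]

end

end Pool.Agent.Q94.GQ
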