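import Pool.Agent.Q275.GQ.Stm2

/-! Project GQ (helper275), job RUN: the difference after `K` digits. -/

set_option autoImplicit false

namespace Pool.Agent.Q94.GQ

open Pool.Agent.Q275.GQ

theorem stp_eq (P : Par) (M c : ℤ × ℤ) : A P (M + c) = A P M + stp P c (dig P M) := by
  unfold stp
  split_ifs with h
  · exact dif_A P h
  · exact dif_B P (not_lt.1 h)

theorem run_eq : S_RUN := by
  intro P M c w K
  induction K with
  | zero => intro _; rfl
  | succ K ih =>
    intro h
    rw [Function.iterate_succ_apply', Function.iterate_succ_apply', ih fun i hi => h i (by omega),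
      stp_eq, h K (by omega)]
    rfl

end Pool.Agent.Q94.GQ
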